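import Pool.Agent.Lib.MP_6cad4c_al.Final
import Pool.Agent.Lib.MP_6cad4c_al.Brute

namespace Pool.Agent.Results.MP_6cad4c_al.Monotone

open Pool.Agent.Lib.MP_6cad4c_al

/-- The proportion of type I zeros in the character table of `S_n` is non-increasing
for `n ≥ 82`. -/
theorem result (n : ℕ) (hn : 82 ≤ n) : zI n ≥ zI (n + 1) := by
  rcases lt_or_ge n 20000 with h | h
  · have h1 : (ZI (n + 1) : ℝ) * (pn n : ℝ) ^ 2 ≤ ZI n * (pn (n + 1) : ℝ) ^ 2 := by
      exact_mod_cast brute n hn h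
    have h2 : (0 : ℝ) < pn n := by exact_mod_cast pn_pos n
    have h3 : (0 : ℝ) < pn (n + 1) := by exact_mod_cast pn_pos (n + 1)
    exact (div_le_div_iff₀ (pow_pos h3 2) (pow_pos h2 2)).2 h1
  · exact zI_succ_le_of_large h

end Pool.Agent.Results.MP_6cad4c_al.Monotone
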